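import Pool.Agent.Helper17.QP.A

/-!
# Project QP, block B4b: the local inequality, four dimensional quotient, exactly one class of proportional squares
-/

set_option autoImplicit false
set_option linter.unusedSectionVars false

namespace Pool.Agent.QP36

open Module Pool.Agent.QP

section tools

variable {K : Type*} [Field K] {Q : Type*} [AddCommGroup Q] [Module K Q]

theorem ind1 {s : Q → ℝ} {r : ℝ} {u : Q} (h : u ≠ 0) (hr : r ≤ s u) : Ind K s r := by
  refine ⟨1, fun _ => u, ?_, by simpa using hr⟩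
  exact LinearIndependent.of_subsingleton 0 h

theorem ind2 {s : Q → ℝ} {r : ℝ} {u v : Q} (h : LinearIndependent K ![u, v]) (hr : r ≤ s u + s v) : Ind K s r := by
  refine ⟨2, ![u, v], h, ?_⟩
  simpa [Fin.sum_univ_succ] using hr

theorem ind3 {s : Q → ℝ} {r : ℝ} {u v w : Q} (h : LinearIndependent K ![u, v, w]) (hr : r ≤ s u + s v + s w) :
    Ind K s r := by
  refine ⟨3, ![u, v, w], h, ?_⟩
  simpa [Fin.sum_univ_succ, add_assoc] using hr

/-- A relation with nonzero coefficient at `b`: the other vectors are independent. -/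
theorem drop {n : ℕ} (F : Fin (n + 1) → Q) (hF : n ≤ finrank K (Submodule.span K (Set.range F))) (g : Fin (n + 1) → K)
    (hg : ∑ a, g a • F a = 0) (b : Fin (n + 1)) (hb : g b ≠ 0) : LinearIndependent K fun a => F (b.succAbove a) := by
  have h1 : Submodule.span K (Set.range F) ≤ Submodule.span K (Set.range fun a => F (b.succAbove a)) := by
    rw [Submodule.span_le]
    rintro _ ⟨a, rfl⟩
    by_cases hab : a = b
    · subst hab
      rw [Fin.sum_univ_succAbove _ a] at hg
      have h2 : F a = ∑ i, (-(g a)⁻¹ * g (a.succAbove i)) • F (a.succAbove i) := by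
        have h3 : g a • F a = - ∑ i, g (a.succAbove i) • F (a.succAbove i) := eq_neg_of_add_eq_zero_left hg
        rw [← inv_smul_smul₀ hb (F a), h3, smul_neg, Finset.smul_sum, ← Finset.sum_neg_distrib]
        refine Finset.sum_congr rfl fun i _ => ?_
        rw [smul_smul, neg_mul, neg_smul]
      rw [SetLike.mem_coe, h2]
      exact Submodule.sum_mem _ fun i _ => Submodule.smul_mem _ _ (Submodule.subset_span ⟨i, rfl⟩)
    · obtain ⟨i, rfl⟩ := Fin.exists_succAbove_eq hab
      exact Submodule.subset_span ⟨i, rfl⟩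
  rw [linearIndependent_iff_card_eq_finrank_span, Fintype.card_fin]
  refine le_antisymm ?_ ?_
  · refine hF.trans ?_
    have : Module.Finite K (Submodule.span K (Set.range fun a => F (b.succAbove a))) :=
      Module.Finite.span_of_finite K (Set.finite_range _)
    exact Submodule.finrank_mono h1
  · have := finrank_range_le_card (R := K) (fun a => F (b.succAbove a))
    rwa [Fintype.card_fin] at this

theorem drop_ind {n : ℕ} {s : Q → ℝ} {r : ℝ} (F : Fin (n + 1) → Q) (hF : n ≤ finrank K (Submodule.span K (Set.range F)))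
    (g : Fin (n + 1) → K) (hg : ∑ a, g a • F a = 0) (b : Fin (n + 1)) (hb : g b ≠ 0) (hr : r ≤ ∑ a, s (F a) - s (F b)) :
    Ind K s r := by
  refine ⟨n, _, drop F hF g hg b hb, ?_⟩
  rw [Fin.sum_univ_succAbove _ b] at hr
  linarith

theorem indep_cons {n : ℕ} {F : Fin n → Q} (hF : LinearIndependent K F) {m : Q}
    (hm : m ∉ Submodule.span K (Set.range F)) : LinearIndependent K (Fin.cons m F : Fin (n + 1) → Q) :=
  linearIndependent_finCons.2 ⟨hF, hm⟩

theorem cons_ind {n : ℕ} {s : Q → ℝ} {r : ℝ} {F : Fin n → Q} (hF : LinearIndependent K F) {m : Q}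
    (hm : m ∉ Submodule.span K (Set.range F)) (hr : r ≤ s m + ∑ a, s (F a)) : Ind K s r := by
  refine ⟨n + 1, _, indep_cons hF hm, ?_⟩
  simpa [Fin.sum_univ_succ] using hr

/-- the relations, in the four dimensional case -/
theorem ker_pair [CharZero K] {Φ : (Fin 6 → K) →ₗ[K] Q} (hΦ : Function.Surjective Φ) (hd : finrank K Q = 4) {u v : Fin 6 → K}
    (hu : Φ u = 0) (hv : Φ v = 0) (huv : LinearIndependent K ![u, v]) {g : Fin 6 → K} (hg : Φ g = 0) :
    ∃ x y : K, g = x • u + y • v := by
  have h1 := LinearMap.finrank_range_add_finrank_ker Φ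
  rw [LinearMap.range_eq_top.2 hΦ, finrank_top, Module.finrank_fin_fun, hd] at h1
  have h2 : finrank K (LinearMap.ker Φ) = 2 := by omega
  have h3 : Submodule.span K (Set.range ![u, v]) = LinearMap.ker Φ := by
    apply Submodule.eq_of_le_of_finrank_eq
    · rw [Submodule.span_le]
      rintro _ ⟨i, rfl⟩
      fin_cases i
      · exact hu
      · exact hv
    · rw [finrank_span_eq_card huv, Fintype.card_fin, h2]
  have h4 : g ∈ Submodule.span K (Set.range ![u, v]) := by rw [h3]; exact hg
  rw [Matrix.range_cons, Matrix.range_cons, Matrix.range_empty, Set.union_empty, Set.singleton_union,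
    Submodule.mem_span_pair] at h4
  obtain ⟨x, y, h⟩ := h4
  exact ⟨x, y, h.symm⟩

end tools

variable {K : Type*} [Field K] [CharZero K] {q : ℕ} (l : Fin q → Fin 3 → K)
variable {Q : Type*} [AddCommGroup Q] [Module K Q] (Φ : (Fin 6 → K) →ₗ[K] Q)

theorem rel_symm {i j : Fin q} (hE : ∀ i, E Φ l i ≠ 0) (h : Rel Φ l i j) : Rel Φ l j i := by
  obtain ⟨c, hc⟩ := h
  have hc0 : c ≠ 0 := by
    rintro rfl
    exact hE i (by rw [hc, zero_smul])
  exact ⟨c⁻¹, by rw [hc, smul_smul, inv_mul_cancel₀ hc0, one_smul]⟩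

theorem rel_trans {i j k : Fin q} (h : Rel Φ l i j) (h' : Rel Φ l j k) : Rel Φ l i k := by
  obtain ⟨c, hc⟩ := h
  obtain ⟨c', hc'⟩ := h'
  exact ⟨c * c', by rw [hc, hc', smul_smul]⟩

theorem rel_s {s : Q → ℝ} {a b : Fin q → ℝ} (hp : Plc Φ l s a b) {i j : Fin q} (hE : ∀ i, E Φ l i ≠ 0) (h : Rel Φ l i j) :
    s (E Φ l i) = s (E Φ l j) := by
  obtain ⟨c, hc⟩ := h
  have hc0 : c ≠ 0 := by
    rintro rfl
    exact hE i (by rw [hc, zero_smul])
  rw [hc, hp.smul c _ hc0 (hE j)]

/-- not proportional: independent -/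
theorem not_rel {i j : Fin q} (hE : ∀ i, E Φ l i ≠ 0) (h : ¬ Rel Φ l i j) : LinearIndependent K ![E Φ l i, E Φ l j] := by
  rw [LinearIndependent.pair_iff]
  intro x y hxy
  have hx : x = 0 := by
    by_contra hx
    apply h
    refine ⟨-(x⁻¹ * y), ?_⟩
    have h1 : x • E Φ l i = - (y • E Φ l j) := eq_neg_of_add_eq_zero_left hxy
    rw [← inv_smul_smul₀ hx (E Φ l i), h1, smul_neg, smul_smul, neg_smul]
  refine ⟨hx, ?_⟩
  rw [hx, zero_smul, zero_add] at hxy
  rcases smul_eq_zero.1 hxy with h1 | h1
  · exact h1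
  · exact absurd h1 (hE j)

/-- the total is a sum over the indices of the type -/
theorem tot_eq {s : Q → ℝ} {a b : Fin q → ℝ} (hp : Plc Φ l s a b) {n : ℕ} (J : Fin n → Fin q)
    (hJ : Function.Injective J) (h0 : ∀ k, (∀ c, k ≠ J c) → a k + b k = 0) : Tot Φ l s = ∑ c, s (E Φ l (J c)) := by
  classical
  have h1 : ∑ k ∈ Finset.univ.map ⟨J, hJ⟩, s (E Φ l k) = ∑ c, s (E Φ l (J c)) := Finset.sum_map _ _ _
  rw [Tot, ← h1]
  refine (Finset.sum_subset (Finset.subset_univ _) fun k _ hk => ?_).symm
  rw [hp.sq k]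
  apply h0
  intro c hc
  exact hk (by simp [hc])


/-! ### The type with four lines -/

/-- `sy m m` times a number and squares of the four lines -/
theorem in_span5 {i j i' j' : Fin q} {m : Fin 3 → K} (c : Fin 5 → K) :
    c 0 • sy (l i) (l i) + c 1 • sy (l j) (l j) + c 2 • sy (l i') (l i') + c 3 • sy (l j') (l j') + c 4 • sy m m ∈
      Submodule.span K {sy (l i) (l i), sy (l j) (l j), sy (l i') (l i'), sy (l j') (l j'), sy m m} := by
  refine Submodule.add_mem _ (Submodule.add_mem _ (Submodule.add_mem _ (Submodule.add_mem _ ?_ ?_) ?_) ?_) ?_ <;>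
    exact Submodule.smul_mem _ _ (Submodule.subset_span (by simp))

theorem d4 (hΦ : Function.Surjective Φ) (hl : GP l) (hE : ∀ i, E Φ l i ≠ 0) (hd : finrank K Q = 4)
    (i0 j0 : Fin q) (h0 : i0 ≠ j0) (hr : Rel Φ l i0 j0) (h : ∀ i j, i ≠ j → Rel Φ l i j → Rel Φ l i i0)
    (s : Q → ℝ) (a b : Fin q → ℝ) (hp : Plc Φ l s a b) (J : Fin 4 → Fin q) (hJ : Function.Injective J)
    (ha : ∀ k, k ≠ J 0 → k ≠ J 1 → a k = 0) (hb : ∀ k, k ≠ J 2 → k ≠ J 3 → b k = 0)
    (h1 : a (J 0) ≤ a (J 1)) (h2 : b (J 2) ≤ b (J 3)) : Ind K s ((3 * Tot Φ l s - 2 * s (E Φ l i0)) / 4) := by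
  classical
  have hfin : Module.Finite K Q := Module.finite_of_finrank_pos (by omega)
  have hne : ∀ c c' : Fin 4, c ≠ c' → J c ≠ J c' := fun c c' hc he => hc (hJ he)
  have n01 := hne 0 1 (by decide)
  have n02 := hne 0 2 (by decide)
  have n03 := hne 0 3 (by decide)
  have n12 := hne 1 2 (by decide)
  have n13 := hne 1 3 (by decide)
  have n23 := hne 2 3 (by decide)
  obtain ⟨m, hm, hm1, hm2⟩ := exists_m l hl (J 0) (J 1) (J 2) (J 3) n01 n02 n03 n12 n13 n23
  have hT : Tot Φ l s = ∑ c, s (E Φ l (J c)) := by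
    refine tot_eq l Φ hp J hJ fun k hk => ?_
    rw [ha k (hk 0) (hk 1), hb k (hk 2) (hk 3), add_zero]
  have e0 : s (E Φ l (J 0)) = a (J 0) := by rw [hp.sq, hb _ n02 n03, add_zero]
  have e1 : s (E Φ l (J 1)) = a (J 1) := by rw [hp.sq, hb _ n12 n13, add_zero]
  have e2 : s (E Φ l (J 2)) = b (J 2) := by rw [hp.sq, ha _ n02.symm n12.symm, zero_add]
  have e3 : s (E Φ l (J 3)) = b (J 3) := by rw [hp.sq, ha _ n03.symm n13.symm, zero_add]
  have sM : Φ (sy m m) ≠ 0 → s (E Φ l (J 0)) + s (E Φ l (J 2)) ≤ s (Φ (sy m m)) := by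
    intro h3
    have h4 := hp.nod m (J 0) (J 1) (J 2) (J 3) hm1 hm2 h3
    rw [min_eq_left h1, min_eq_left h2] at h4
    rw [e0, e2]
    exact h4
  have p0 := hp.nonneg _ (hE (J 0))
  have p1 := hp.nonneg _ (hE (J 1))
  have p2 := hp.nonneg _ (hE (J 2))
  have p3 := hp.nonneg _ (hE (J 3))
  have pK := hp.nonneg _ (hE i0)
  have l01 : s (E Φ l (J 0)) ≤ s (E Φ l (J 1)) := by rw [e0, e1]; exact h1
  have l23 : s (E Φ l (J 2)) ≤ s (E Φ l (J 3)) := by rw [e2, e3]; exact h2
  rw [Fin.sum_univ_four] at hT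
  -- the span of the squares
  set F : Fin 4 → Q := fun c => E Φ l (J c) with hF
  have hi5 := indep4m l hl (J 0) (J 1) (J 2) (J 3) n01 n02 n03 n12 n13 n23 m hm hm1 hm2
  have hi4 : LinearIndependent K fun c : Fin 4 => sy (l (J c)) (l (J c)) := by
    have h5 := hi5.comp (Fin.castSucc : Fin 4 → Fin 5) (Fin.castSucc_injective 4)
    have h6 : (![sy (l (J 0)) (l (J 0)), sy (l (J 1)) (l (J 1)), sy (l (J 2)) (l (J 2)), sy (l (J 3)) (l (J 3)), sy m m] ∘
        (Fin.castSucc : Fin 4 → Fin 5)) = fun c : Fin 4 => sy (l (J c)) (l (J c)) := by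
      funext c
      fin_cases c <;> rfl
    rwa [h6] at h5
  have hw2 : 2 ≤ finrank K (Submodule.span K (Set.range F)) := by
    have h5 := rel_rank Φ hΦ _ hi4
    have h6 : (Φ ∘ fun c : Fin 4 => sy (l (J c)) (l (J c))) = F := rfl
    rw [h6] at h5
    omega
  -- a pair of proportional squares
  have hpair : ∀ c c' : Fin 4, c ≠ c' → Rel Φ l (J c) (J c') → s (E Φ l (J c)) = s (E Φ l i0) ∧
      s (E Φ l (J c')) = s (E Φ l i0) := by
    intro c c' hc hR
    have h5 := h _ _ (hne c c' hc) hR
    have h6 := rel_s l Φ hp hE h5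
    have h7 := rel_s l Φ hp hE hR
    exact ⟨h6, by rw [← h7, h6]⟩
  have hdrop : 3 ≤ finrank K (Submodule.span K (Set.range F)) → ∀ c c' : Fin 4, c ≠ c' → Rel Φ l (J c) (J c') →
      Ind K s ((3 * Tot Φ l s - 2 * s (E Φ l i0)) / 4) := by
    intro hw c c' hc hR
    obtain ⟨h5, h6⟩ := hpair c c' hc hR
    obtain ⟨x, hx⟩ := hR
    refine drop_ind F hw (fun i => if i = c then 1 else if i = c' then -x else 0) ?_ c (by simp) ?_
    · rw [Finset.sum_eq_add c c' hc]
      · simp only [if_true, one_smul, if_neg (Ne.symm hc), hF]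
        rw [hx, neg_smul, add_neg_cancel]
      · intro i _ hi
        rw [if_neg hi.1, if_neg hi.2, zero_smul]
      · intro h7; exact absurd (Finset.mem_univ _) h7
      · intro h7; exact absurd (Finset.mem_univ _) h7
    · have h7 : s (F c) + s (F c') ≤ ∑ i, s (F i) := by
        rw [← Finset.add_sum_erase _ _ (Finset.mem_univ c)]
        have h8 : s (F c') ≤ ∑ i ∈ Finset.univ.erase c, s (F i) :=
          Finset.single_le_sum (f := fun i => s (F i)) (fun i _ => hp.nonneg _ (hE (J i)))
            (Finset.mem_erase.2 ⟨Ne.symm hc, Finset.mem_univ _⟩)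
        linarith
      have h8 : Tot Φ l s = ∑ i, s (F i) := by rw [hT, Fin.sum_univ_four]
      have h9 : s (F c) = s (E Φ l i0) := h5
      have h10 : s (F c') = s (E Φ l i0) := h6
      rw [h8]
      linarith
  rcases Nat.lt_or_ge (finrank K (Submodule.span K (Set.range F))) 3 with hw | hw
  · -- two dimensional span
    have hM : Φ (sy m m) ∉ Submodule.span K (Set.range F) := by
      intro hM
      have h5 := rel_rank Φ hΦ _ hi5
      have h6 : Submodule.span K (Set.range (Φ ∘ ![sy (l (J 0)) (l (J 0)), sy (l (J 1)) (l (J 1)), sy (l (J 2)) (l (J 2)),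
          sy (l (J 3)) (l (J 3)), sy m m])) ≤ Submodule.span K (Set.range F) := by
        rw [Submodule.span_le]
        rintro _ ⟨c, rfl⟩
        fin_cases c
        · exact Submodule.subset_span ⟨0, rfl⟩
        · exact Submodule.subset_span ⟨1, rfl⟩
        · exact Submodule.subset_span ⟨2, rfl⟩
        · exact Submodule.subset_span ⟨3, rfl⟩
        · exact hM
      have h7 := Submodule.finrank_mono h6
      omega
    have hM0 : Φ (sy m m) ≠ 0 := fun h5 => hM (by rw [h5]; exact Submodule.zero_mem _)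
    have hMs := sM hM0
    have hsub : ∀ c c' : Fin 4, Φ (sy m m) ∉ Submodule.span K (Set.range ![E Φ l (J c), E Φ l (J c')]) := by
      intro c c' h5
      apply hM
      refine (Submodule.span_le.2 ?_) h5
      rintro _ ⟨i, rfl⟩
      fin_cases i
      · exact Submodule.subset_span ⟨c, rfl⟩
      · exact Submodule.subset_span ⟨c', rfl⟩
    by_cases h13 : Rel Φ l (J 1) (J 3)
    · obtain ⟨h5, h6⟩ := hpair 1 3 (by decide) h13
      by_cases h03 : Rel Φ l (J 0) (J 3)
      · -- then the third line is not in the class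
        have h23 : ¬ Rel Φ l (J 2) (J 3) := by
          intro h23
          have h7 : Submodule.span K (Set.range F) ≤ Submodule.span K {E Φ l (J 3)} := by
            rw [Submodule.span_le]
            rintro _ ⟨c, rfl⟩
            rw [SetLike.mem_coe, Submodule.mem_span_singleton]
            fin_cases c
            · obtain ⟨x, hx⟩ := h03; exact ⟨x, hx.symm⟩
            · obtain ⟨x, hx⟩ := h13; exact ⟨x, hx.symm⟩
            · obtain ⟨x, hx⟩ := h23; exact ⟨x, hx.symm⟩
            · exact ⟨1, one_smul _ _⟩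
          have h8 := Submodule.finrank_mono h7
          have h9 : finrank K (Submodule.span K {E Φ l (J 3)}) ≤ 1 := by
            simpa using finrank_span_le_card (R := K) ({E Φ l (J 3)} : Set Q)
          omega
        refine cons_ind (not_rel l Φ hE h23) (hsub 2 3) ?_
        simp only [Fin.sum_univ_two, Matrix.cons_val_zero, Matrix.cons_val_one]
        linarith
      · refine cons_ind (not_rel l Φ hE h03) (hsub 0 3) ?_
        simp only [Fin.sum_univ_two, Matrix.cons_val_zero, Matrix.cons_val_one]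
        linarith
    · refine cons_ind (not_rel l Φ hE h13) (hsub 1 3) ?_
      simp only [Fin.sum_univ_two, Matrix.cons_val_zero, Matrix.cons_val_one]
      linarith
  · by_cases hR : ∃ c c' : Fin 4, c ≠ c' ∧ Rel Φ l (J c) (J c')
    · obtain ⟨c, c', hc, hR⟩ := hR
      exact hdrop hw c c' hc hR
    · -- no pair
      have hR' : ∀ c c' : Fin 4, c ≠ c' → ¬ Rel Φ l (J c) (J c') := fun c c' hc h5 => hR ⟨c, c', hc, h5⟩
      have h13 := not_rel l Φ hE (hR' 1 3 (by decide))
      by_cases hM : Φ (sy m m) ∈ Submodule.span K (Set.range ![E Φ l (J 1), E Φ l (J 3)])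
      · by_cases hI : LinearIndependent K F
        · refine ⟨4, F, hI, ?_⟩
          rw [Fin.sum_univ_four]
          have h8 : s (F 0) = s (E Φ l (J 0)) := rfl
          have h9 : s (F 1) = s (E Φ l (J 1)) := rfl
          have h10 : s (F 2) = s (E Φ l (J 2)) := rfl
          have h11 : s (F 3) = s (E Φ l (J 3)) := rfl
          rw [h8, h9, h10, h11]
          linarith
        obtain ⟨g, hg, c0, hc0⟩ := Fintype.not_linearIndependent_iff.1 hI
        rw [Matrix.range_cons, Matrix.range_cons, Matrix.range_empty, Set.union_empty, Set.singleton_union,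
          Submodule.mem_span_pair] at hM
        obtain ⟨x, y, hxy⟩ := hM
        set H : Fin 6 → K := sy m m - x • sy (l (J 1)) (l (J 1)) - y • sy (l (J 3)) (l (J 3)) with hH
        have hH0 : Φ H = 0 := by
          rw [hH, map_sub, map_sub, map_smul, map_smul, ← hxy]
          simp only [E]
          abel
        set G : Fin 6 → K := ∑ c, g c • sy (l (J c)) (l (J c)) with hG
        have hG0 : Φ G = 0 := by
          rw [hG, map_sum, ← hg]
          refine Finset.sum_congr rfl fun c _ => ?_
          rw [map_smul]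
          rfl
        have key5 : ∀ c : Fin 5 → K, c 0 • sy (l (J 0)) (l (J 0)) + c 1 • sy (l (J 1)) (l (J 1)) + c 2 • sy (l (J 2)) (l (J 2)) +
            c 3 • sy (l (J 3)) (l (J 3)) + c 4 • sy m m = 0 → ∀ i, c i = 0 := by
          intro c hc
          have h5 := Fintype.linearIndependent_iff.1 hi5 c
          rw [Fin.sum_univ_five] at h5
          exact h5 hc
        have hGH : LinearIndependent K ![G, H] := by
          rw [LinearIndependent.pair_iff]
          intro u v huv
          have h5 := key5 ![u * g 0, u * g 1 - v * x, u * g 2, u * g 3 - v * y, v] (by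
            rw [← huv, hG, hH, Fin.sum_univ_four]
            simp only [Matrix.cons_val_zero, Matrix.cons_val_one, Matrix.cons_val]
            module)
          have hv : v = 0 := h5 4
          refine ⟨?_, hv⟩
          by_contra hu
          apply hc0
          have q0 : u * g 0 = 0 := h5 0
          have q1 : u * g 1 - v * x = 0 := h5 1
          have q2 : u * g 2 = 0 := h5 2
          have q3 : u * g 3 - v * y = 0 := h5 3
          rw [hv, zero_mul, sub_zero] at q1 q3
          fin_cases c0
          · exact (mul_eq_zero.1 q0).resolve_left hu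
          · exact (mul_eq_zero.1 q1).resolve_left hu
          · exact (mul_eq_zero.1 q2).resolve_left hu
          · exact (mul_eq_zero.1 q3).resolve_left hu
        obtain ⟨r, hr'⟩ := hr
        have hr0 : r ≠ 0 := by
          rintro rfl
          exact hE i0 (by rw [hr', zero_smul])
        have hK0 : Φ (sy (l i0) (l i0) - r • sy (l j0) (l j0)) = 0 := by
          rw [map_sub, map_smul, sub_eq_zero]
          exact hr'
        obtain ⟨α, β, hαβ⟩ := ker_pair hΦ hd hG0 hH0 hGH hK0
        have hC : (1 : K) • sy (l i0) (l i0) + (-r) • sy (l j0) (l j0) =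
            (![α * g 0, α * g 1 - β * x, α * g 2, α * g 3 - β * y, β] : Fin 5 → K) 0 • sy (l (J 0)) (l (J 0)) +
            (![α * g 0, α * g 1 - β * x, α * g 2, α * g 3 - β * y, β] : Fin 5 → K) 1 • sy (l (J 1)) (l (J 1)) +
            (![α * g 0, α * g 1 - β * x, α * g 2, α * g 3 - β * y, β] : Fin 5 → K) 2 • sy (l (J 2)) (l (J 2)) +
            (![α * g 0, α * g 1 - β * x, α * g 2, α * g 3 - β * y, β] : Fin 5 → K) 3 • sy (l (J 3)) (l (J 3)) +
            (![α * g 0, α * g 1 - β * x, α * g 2, α * g 3 - β * y, β] : Fin 5 → K) 4 • sy m m := by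
          simp only [Matrix.cons_val_zero, Matrix.cons_val_one, Matrix.cons_val]
          rw [one_smul, neg_smul, ← sub_eq_add_neg, hαβ, hG, hH, Fin.sum_univ_four]
          module
        have hin : ∀ (c : Fin 4), sy (l (J c)) (l (J c)) ∈ Submodule.span K {sy (l (J 0)) (l (J 0)), sy (l (J 1)) (l (J 1)),
            sy (l (J 2)) (l (J 2)), sy (l (J 3)) (l (J 3)), sy m m} := by
          intro c
          apply Submodule.subset_span
          fin_cases c <;> simp
        have hno : ∀ k, (∀ c, k ≠ J c) → [J 0, J 1, J 2, J 3, k].Nodup := by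
          intro k hk
          simp [n01, n02, n03, n12, n13, n23, (hk 0).symm, (hk 1).symm, (hk 2).symm, (hk 3).symm]
        by_cases hi0 : ∃ c, i0 = J c
        · obtain ⟨c, hc⟩ := hi0
          by_cases hj0 : ∃ c', j0 = J c'
          · obtain ⟨c', hc'⟩ := hj0
            exfalso
            refine hR' c c' ?_ ?_
            · rintro rfl
              exact h0 (hc.trans hc'.symm)
            · rw [← hc, ← hc']
              exact ⟨r, hr'⟩
          · exfalso
            refine coef4m' l hl (J 0) (J 1) (J 2) (J 3) j0 (hno j0 fun c' hc' => hj0 ⟨c', hc'⟩) m hm hm1 hm2 ?_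
            have h5 : sy (l j0) (l j0) = r⁻¹ • (sy (l i0) (l i0) - ((1 : K) • sy (l i0) (l i0) + (-r) • sy (l j0) (l j0))) := by
              rw [one_smul, neg_smul, sub_add_cancel_left, neg_neg, inv_smul_smul₀ hr0]
            rw [h5, hC]
            refine Submodule.smul_mem _ _ (Submodule.sub_mem _ ?_ (in_span5 l _))
            rw [hc]
            exact hin c
        · by_cases hj0 : ∃ c', j0 = J c'
          · obtain ⟨c', hc'⟩ := hj0
            exfalso
            refine coef4m' l hl (J 0) (J 1) (J 2) (J 3) i0 (hno i0 fun c' hc' => hi0 ⟨c', hc'⟩) m hm hm1 hm2 ?_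
            have h5 : sy (l i0) (l i0) = ((1 : K) • sy (l i0) (l i0) + (-r) • sy (l j0) (l j0)) + r • sy (l j0) (l j0) := by
              rw [one_smul, neg_smul, neg_add_cancel_right]
            rw [h5, hC]
            refine Submodule.add_mem _ (in_span5 l _) (Submodule.smul_mem _ _ ?_)
            rw [hc']
            exact hin c'
          · have hi0' : ∀ c, i0 ≠ J c := fun c hc => hi0 ⟨c, hc⟩
            have hj0' : ∀ c, j0 ≠ J c := fun c hc => hj0 ⟨c, hc⟩
            have h5 := coef4m l hl (J 0) (J 1) (J 2) (J 3) i0 j0 (by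
              simp [n01, n02, n03, n12, n13, n23, (hi0' 0).symm, (hi0' 1).symm, (hi0' 2).symm, (hi0' 3).symm,
                (hj0' 0).symm, (hj0' 1).symm, (hj0' 2).symm, (hj0' 3).symm, h0]) m hm hm1 hm2 1 (-r) one_ne_zero
                (neg_ne_zero.2 hr0) _ hC
            have g0 : g 0 ≠ 0 := fun h6 => h5.1 (by simp [h6])
            have g2 : g 2 ≠ 0 := fun h6 => h5.2.2.1 (by simp [h6])
            have h8 : Tot Φ l s = ∑ i, s (F i) := by rw [hT, Fin.sum_univ_four]
            have h9 : s (F 0) = s (E Φ l (J 0)) := rfl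
            have h10 : s (F 2) = s (E Φ l (J 2)) := rfl
            rcases le_total (s (E Φ l (J 0))) (s (E Φ l (J 2))) with h7 | h7
            · refine drop_ind F hw g hg 0 g0 ?_
              rw [← h8, h9]
              linarith
            · refine drop_ind F hw g hg 2 g2 ?_
              rw [← h8, h10]
              linarith
      · have hM0 : Φ (sy m m) ≠ 0 := fun h5 => hM (by rw [h5]; exact Submodule.zero_mem _)
        have hMs := sM hM0
        refine cons_ind h13 hM ?_
        simp only [Fin.sum_univ_two, Matrix.cons_val_zero, Matrix.cons_val_one]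
        linarith

/-! ### The type with three lines -/

theorem in_span5' {i j j' : Fin q} (c : Fin 5 → K) :
    c 0 • sy (l i) (l i) + c 1 • sy (l j) (l j) + c 2 • sy (l j') (l j') + c 3 • sy (l i) (l j) + c 4 • sy (l i) (l j') ∈
      Submodule.span K {sy (l i) (l i), sy (l j) (l j), sy (l j') (l j'), sy (l i) (l j), sy (l i) (l j')} := by
  refine Submodule.add_mem _ (Submodule.add_mem _ (Submodule.add_mem _ (Submodule.add_mem _ ?_ ?_) ?_) ?_) ?_ <;>
    exact Submodule.smul_mem _ _ (Submodule.subset_span (by simp))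

/-- the square of a fourth line -/
theorem coef3n' (hl : GP l) (i j j' k : Fin q) (ij : i ≠ j) (ij' : i ≠ j') (_jj' : j ≠ j') (ik : i ≠ k) (jk : j ≠ k)
    (j'k : j' ≠ k) : sy (l k) (l k) ∉ Submodule.span K
      {sy (l i) (l i), sy (l j) (l j), sy (l j') (l j'), sy (l i) (l j), sy (l i) (l j')} := by
  intro h
  have h1 : Submodule.span K {sy (l i) (l i), sy (l j) (l j), sy (l j') (l j'), sy (l i) (l j), sy (l i) (l j')} ≤
      LinearMap.ker (prL (ten (cr (l i) (l j)) (cr (l i) (l j')))) := by
    rw [Submodule.span_le]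
    intro g hg
    simp only [Set.mem_insert_iff, Set.mem_singleton_iff] at hg
    rw [SetLike.mem_coe, LinearMap.mem_ker]
    rcases hg with rfl | rfl | rfl | rfl | rfl
    · rw [prL_sq, dt_cr_left]; ring
    · rw [prL_sq, dt_cr_right]; ring
    · rw [prL_sq, dt_cr_right]; ring
    · rw [prL_sy, dt_cr_left, dt_cr_left, dt_cr_right]; ring
    · rw [prL_sy, dt_cr_left, dt_cr_left, dt_cr_right]; ring
  have h2 := h1 h
  rw [LinearMap.mem_ker, prL_sq] at h2
  exact mul_ne_zero two_ne_zero (mul_ne_zero (hl.ne ij ik jk) (hl.ne ij' ik j'k)) h2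

theorem d3' (hΦ : Function.Surjective Φ) (hl : GP l) (hE : ∀ i, E Φ l i ≠ 0) (hd : finrank K Q = 4)
    (i0 j0 : Fin q) (h0 : i0 ≠ j0) (hr : Rel Φ l i0 j0) (h : ∀ i j, i ≠ j → Rel Φ l i j → Rel Φ l i i0)
    (s : Q → ℝ) (a b : Fin q → ℝ) (hp : Plc Φ l s a b) (J : Fin 3 → Fin q) (hJ : Function.Injective J)
    (ha : ∀ k, k ≠ J 0 → k ≠ J 1 → a k = 0) (hb : ∀ k, k ≠ J 0 → k ≠ J 2 → b k = 0) :
    Ind K s ((3 * Tot Φ l s - 2 * s (E Φ l i0)) / 4) := by
  classical
  have hfin : Module.Finite K Q := Module.finite_of_finrank_pos (by omega)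
  have hne : ∀ c c' : Fin 3, c ≠ c' → J c ≠ J c' := fun c c' hc he => hc (hJ he)
  have n01 := hne 0 1 (by decide)
  have n02 := hne 0 2 (by decide)
  have n12 := hne 1 2 (by decide)
  have hT : Tot Φ l s = ∑ c, s (E Φ l (J c)) := by
    refine tot_eq l Φ hp J hJ fun k hk => ?_
    rw [ha k (hk 0) (hk 1), hb k (hk 0) (hk 2), add_zero]
  have e0 : s (E Φ l (J 0)) = a (J 0) + b (J 0) := hp.sq _
  have b1 : b (J 1) = 0 := hb _ n01.symm n12
  have a2 : a (J 2) = 0 := ha _ n02.symm n12.symm
  have e1 : s (E Φ l (J 1)) = a (J 1) := by rw [hp.sq, b1, add_zero]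
  have e2 : s (E Φ l (J 2)) = b (J 2) := by rw [hp.sq, a2, zero_add]
  have qa0 := hp.a0 (J 0)
  have qb0 := hp.b0 (J 0)
  have sN1 : B Φ l (J 0) (J 1) ≠ 0 → min (a (J 0)) (a (J 1) + b (J 0)) ≤ s (B Φ l (J 0) (J 1)) := by
    intro h3
    have h4 := hp.mul _ _ n01 h3
    rwa [b1, add_zero] at h4
  have sN2 : B Φ l (J 0) (J 2) ≠ 0 → min (a (J 0) + b (J 2)) (b (J 0)) ≤ s (B Φ l (J 0) (J 2)) := by
    intro h3
    have h4 := hp.mul _ _ n02 h3
    rwa [a2, zero_add] at h4
  have p0 := hp.nonneg _ (hE (J 0))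
  have p1 := hp.nonneg _ (hE (J 1))
  have p2 := hp.nonneg _ (hE (J 2))
  have pK := hp.nonneg _ (hE i0)
  rw [Fin.sum_univ_three] at hT
  -- the span of the squares
  set F : Fin 3 → Q := fun c => E Φ l (J c) with hF
  have hi5 := indep3n l hl (J 0) (J 1) (J 2) n01 n02 n12
  have h8 : Tot Φ l s = ∑ i, s (F i) := by rw [hT, Fin.sum_univ_three]
  have f0 : s (F 0) = s (E Φ l (J 0)) := rfl
  have f1 : s (F 1) = s (E Φ l (J 1)) := rfl
  have f2 : s (F 2) = s (E Φ l (J 2)) := rfl
  by_cases hI : LinearIndependent K F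
  · refine ⟨3, F, hI, ?_⟩
    rw [← h8]
    linarith
  -- a pair of proportional squares
  have hpair : ∀ c c' : Fin 3, c ≠ c' → Rel Φ l (J c) (J c') → s (E Φ l (J c)) = s (E Φ l i0) ∧
      s (E Φ l (J c')) = s (E Φ l i0) := by
    intro c c' hc hR
    have h5 := h _ _ (hne c c' hc) hR
    have h6 := rel_s l Φ hp hE h5
    have h7 := rel_s l Φ hp hE hR
    exact ⟨h6, by rw [← h7, h6]⟩
  have hdrop : 2 ≤ finrank K (Submodule.span K (Set.range F)) → ∀ c c' : Fin 3, c ≠ c' → Rel Φ l (J c) (J c') →
      Ind K s ((3 * Tot Φ l s - 2 * s (E Φ l i0)) / 4) := by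
    intro hw c c' hc hR
    obtain ⟨h5, h6⟩ := hpair c c' hc hR
    obtain ⟨x, hx⟩ := hR
    refine drop_ind F hw (fun i => if i = c then 1 else if i = c' then -x else 0) ?_ c (by simp) ?_
    · rw [Finset.sum_eq_add c c' hc]
      · simp only [if_true, one_smul, if_neg (Ne.symm hc), hF]
        rw [hx, neg_smul, add_neg_cancel]
      · intro i _ hi
        rw [if_neg hi.1, if_neg hi.2, zero_smul]
      · intro h7; exact absurd (Finset.mem_univ _) h7
      · intro h7; exact absurd (Finset.mem_univ _) h7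
    · have h7 : s (F c) + s (F c') ≤ ∑ i, s (F i) := by
        rw [← Finset.add_sum_erase _ _ (Finset.mem_univ c)]
        have h8 : s (F c') ≤ ∑ i ∈ Finset.univ.erase c, s (F i) :=
          Finset.single_le_sum (f := fun i => s (F i)) (fun i _ => hp.nonneg _ (hE (J i)))
            (Finset.mem_erase.2 ⟨Ne.symm hc, Finset.mem_univ _⟩)
        linarith
      have h9 : s (F c) = s (E Φ l i0) := h5
      have h10 : s (F c') = s (E Φ l i0) := h6
      rw [h8]
      linarith
  rcases Nat.lt_or_ge (finrank K (Submodule.span K (Set.range F))) 2 with hw | hw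
  · -- all three proportional
    have hpr : ∀ c c', c ≠ c' → Rel Φ l (J c) (J c') := by
      intro c c' hc
      by_contra hR
      have h5 := not_rel l Φ hE hR
      have h6 : Submodule.span K (Set.range ![E Φ l (J c), E Φ l (J c')]) ≤ Submodule.span K (Set.range F) := by
        rw [Submodule.span_le]
        rintro _ ⟨i, rfl⟩
        fin_cases i
        · exact Submodule.subset_span ⟨c, rfl⟩
        · exact Submodule.subset_span ⟨c', rfl⟩
      have h7 := Submodule.finrank_mono h6
      rw [finrank_span_eq_card h5, Fintype.card_fin] at h7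
      omega
    obtain ⟨k1, k0⟩ := hpair 1 0 (by decide) (hpr 1 0 (by decide))
    obtain ⟨k2, -⟩ := hpair 2 0 (by decide) (hpr 2 0 (by decide))
    have h9 : LinearIndependent K ![E Φ l (J 0), B Φ l (J 0) (J 1), B Φ l (J 0) (J 2)] := by
      have h5 := rel_rank Φ hΦ _ hi5
      rw [linearIndependent_iff_card_eq_finrank_span, Fintype.card_fin]
      refine le_antisymm ?_ ?_
      · have h6 : Submodule.span K (Set.range (Φ ∘ ![sy (l (J 0)) (l (J 0)), sy (l (J 1)) (l (J 1)), sy (l (J 2)) (l (J 2)),
            sy (l (J 0)) (l (J 1)), sy (l (J 0)) (l (J 2))])) ≤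
            Submodule.span K (Set.range ![E Φ l (J 0), B Φ l (J 0) (J 1), B Φ l (J 0) (J 2)]) := by
          rw [Submodule.span_le]
          rintro _ ⟨c, rfl⟩
          have hm0 : E Φ l (J 0) ∈ Submodule.span K (Set.range ![E Φ l (J 0), B Φ l (J 0) (J 1), B Φ l (J 0) (J 2)]) :=
            Submodule.subset_span ⟨0, rfl⟩
          fin_cases c
          · exact hm0
          · obtain ⟨x, hx⟩ := hpr 1 0 (by decide)
            change E Φ l (J 1) ∈ _
            rw [hx]
            exact Submodule.smul_mem _ _ hm0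
          · obtain ⟨x, hx⟩ := hpr 2 0 (by decide)
            change E Φ l (J 2) ∈ _
            rw [hx]
            exact Submodule.smul_mem _ _ hm0
          · exact Submodule.subset_span ⟨1, rfl⟩
          · exact Submodule.subset_span ⟨2, rfl⟩
        have h7 := Submodule.finrank_mono h6
        change 3 ≤ finrank K (Submodule.span K (Set.range ![E Φ l (J 0), B Φ l (J 0) (J 1), B Φ l (J 0) (J 2)]))
        omega
      · have := finrank_range_le_card (R := K) ![E Φ l (J 0), B Φ l (J 0) (J 1), B Φ l (J 0) (J 2)]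
        rwa [Fintype.card_fin] at this
    have hN1 := sN1 (h9.ne_zero 1)
    have hN2 := sN2 (h9.ne_zero 2)
    refine ind3 h9 ?_
    rw [min_eq_left (by linarith)] at hN1
    rw [min_eq_right (by linarith)] at hN2
    linarith
  · by_cases hR : ∃ c c' : Fin 3, c ≠ c' ∧ Rel Φ l (J c) (J c')
    · obtain ⟨c, c', hc, hR⟩ := hR
      exact hdrop hw c c' hc hR
    · -- no pair
      have hR' : ∀ c c' : Fin 3, c ≠ c' → ¬ Rel Φ l (J c) (J c') := fun c c' hc h5 => hR ⟨c, c', hc, h5⟩
      obtain ⟨g, hg, c0, hc0⟩ := Fintype.not_linearIndependent_iff.1 hI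
      -- all coefficients are nonzero
      have hgall : ∀ c, g c ≠ 0 := by
        have k01 := LinearIndependent.pair_iff.1 (not_rel l Φ hE (hR' 0 1 (by decide)))
        have k02 := LinearIndependent.pair_iff.1 (not_rel l Φ hE (hR' 0 2 (by decide)))
        have k12 := LinearIndependent.pair_iff.1 (not_rel l Φ hE (hR' 1 2 (by decide)))
        rw [Fin.sum_univ_three] at hg
        intro c hc
        apply hc0
        fin_cases c
        · have hc' : g 0 = 0 := hc
          rw [hc', zero_smul, zero_add] at hg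
          obtain ⟨h5, h6⟩ := k12 _ _ hg
          fin_cases c0
          · exact hc'
          · exact h5
          · exact h6
        · have hc' : g 1 = 0 := hc
          rw [hc', zero_smul, add_zero] at hg
          obtain ⟨h5, h6⟩ := k02 _ _ hg
          fin_cases c0
          · exact h5
          · exact hc'
          · exact h6
        · have hc' : g 2 = 0 := hc
          rw [hc', zero_smul, add_zero] at hg
          obtain ⟨h5, h6⟩ := k01 _ _ hg
          fin_cases c0
          · exact h5
          · exact h6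
          · exact hc'
      set G : Fin 6 → K := ∑ c, g c • sy (l (J c)) (l (J c)) with hG
      have hG0 : Φ G = 0 := by
        rw [hG, map_sum, ← hg]
        refine Finset.sum_congr rfl fun c _ => ?_
        rw [map_smul]
        rfl
      have key5 : ∀ c : Fin 5 → K, c 0 • sy (l (J 0)) (l (J 0)) + c 1 • sy (l (J 1)) (l (J 1)) + c 2 • sy (l (J 2)) (l (J 2)) +
          c 3 • sy (l (J 0)) (l (J 1)) + c 4 • sy (l (J 0)) (l (J 2)) = 0 → ∀ i, c i = 0 := by
        intro c hc
        have h5 := Fintype.linearIndependent_iff.1 hi5 c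
        rw [Fin.sum_univ_five] at h5
        exact h5 hc
      -- neither of the products is in the span
      have hN : ∀ y z : K, (y ≠ 0 ∧ z = 0) ∨ (y = 0 ∧ z ≠ 0) →
          y • B Φ l (J 0) (J 1) + z • B Φ l (J 0) (J 2) ∉ Submodule.span K (Set.range F) := by
        intro y z hyz hM
        obtain ⟨x, hx⟩ := (Submodule.mem_span_range_iff_exists_fun K).1 hM
        rw [Fin.sum_univ_three] at hx
        set H : Fin 6 → K := y • sy (l (J 0)) (l (J 1)) + z • sy (l (J 0)) (l (J 2)) - x 0 • sy (l (J 0)) (l (J 0)) -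
          x 1 • sy (l (J 1)) (l (J 1)) - x 2 • sy (l (J 2)) (l (J 2)) with hH
        have hH0 : Φ H = 0 := by
          rw [hH, map_sub, map_sub, map_sub, map_add, map_smul, map_smul, map_smul, map_smul, map_smul]
          change y • B Φ l (J 0) (J 1) + z • B Φ l (J 0) (J 2) - x 0 • F 0 - x 1 • F 1 - x 2 • F 2 = 0
          rw [← hx]
          abel
        have hGH : LinearIndependent K ![G, H] := by
          rw [LinearIndependent.pair_iff]
          intro u v huv
          have h5 := key5 ![u * g 0 - v * x 0, u * g 1 - v * x 1, u * g 2 - v * x 2, v * y, v * z] (by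
            rw [← huv, hG, hH, Fin.sum_univ_three]
            simp only [Matrix.cons_val_zero, Matrix.cons_val_one, Matrix.cons_val]
            module)
          have hv : v = 0 := by
            have h6 : v * y = 0 := h5 3
            have h7 : v * z = 0 := h5 4
            rcases hyz with hyz | hyz
            · exact (mul_eq_zero.1 h6).resolve_right hyz.1
            · exact (mul_eq_zero.1 h7).resolve_right hyz.2
          refine ⟨?_, hv⟩
          have q0 : u * g 0 - v * x 0 = 0 := h5 0
          rw [hv, zero_mul, sub_zero] at q0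
          exact (mul_eq_zero.1 q0).resolve_right (hgall 0)
        obtain ⟨r, hr'⟩ := hr
        have hr0 : r ≠ 0 := by
          rintro rfl
          exact hE i0 (by rw [hr', zero_smul])
        have hK0 : Φ (sy (l i0) (l i0) - r • sy (l j0) (l j0)) = 0 := by
          rw [map_sub, map_smul, sub_eq_zero]
          exact hr'
        obtain ⟨α, β, hαβ⟩ := ker_pair hΦ hd hG0 hH0 hGH hK0
        have hC : (1 : K) • sy (l i0) (l i0) + (-r) • sy (l j0) (l j0) =
            (![α * g 0 - β * x 0, α * g 1 - β * x 1, α * g 2 - β * x 2, β * y, β * z] : Fin 5 → K) 0 • sy (l (J 0)) (l (J 0)) +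
            (![α * g 0 - β * x 0, α * g 1 - β * x 1, α * g 2 - β * x 2, β * y, β * z] : Fin 5 → K) 1 • sy (l (J 1)) (l (J 1)) +
            (![α * g 0 - β * x 0, α * g 1 - β * x 1, α * g 2 - β * x 2, β * y, β * z] : Fin 5 → K) 2 • sy (l (J 2)) (l (J 2)) +
            (![α * g 0 - β * x 0, α * g 1 - β * x 1, α * g 2 - β * x 2, β * y, β * z] : Fin 5 → K) 3 • sy (l (J 0)) (l (J 1)) +
            (![α * g 0 - β * x 0, α * g 1 - β * x 1, α * g 2 - β * x 2, β * y, β * z] : Fin 5 → K) 4 • sy (l (J 0)) (l (J 2)) := by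
          simp only [Matrix.cons_val_zero, Matrix.cons_val_one, Matrix.cons_val]
          rw [one_smul, neg_smul, ← sub_eq_add_neg, hαβ, hG, hH, Fin.sum_univ_three]
          module
        have hin : ∀ (c : Fin 3), sy (l (J c)) (l (J c)) ∈ Submodule.span K {sy (l (J 0)) (l (J 0)), sy (l (J 1)) (l (J 1)),
            sy (l (J 2)) (l (J 2)), sy (l (J 0)) (l (J 1)), sy (l (J 0)) (l (J 2))} := by
          intro c
          apply Submodule.subset_span
          fin_cases c <;> simp
        by_cases hi0 : ∃ c, i0 = J c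
        · obtain ⟨c, hc⟩ := hi0
          by_cases hj0 : ∃ c', j0 = J c'
          · obtain ⟨c', hc'⟩ := hj0
            refine hR' c c' ?_ ?_
            · rintro rfl
              exact h0 (hc.trans hc'.symm)
            · rw [← hc, ← hc']
              exact ⟨r, hr'⟩
          · have hj0' : ∀ c, j0 ≠ J c := fun c hc => hj0 ⟨c, hc⟩
            refine coef3n' l hl (J 0) (J 1) (J 2) j0 n01 n02 n12 (hj0' 0).symm (hj0' 1).symm (hj0' 2).symm ?_
            have h5 : sy (l j0) (l j0) = r⁻¹ • (sy (l i0) (l i0) - ((1 : K) • sy (l i0) (l i0) + (-r) • sy (l j0) (l j0))) := by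
              rw [one_smul, neg_smul, sub_add_cancel_left, neg_neg, inv_smul_smul₀ hr0]
            rw [h5, hC]
            refine Submodule.smul_mem _ _ (Submodule.sub_mem _ ?_ (in_span5' l _))
            rw [hc]
            exact hin c
        · have hi0' : ∀ c, i0 ≠ J c := fun c hc => hi0 ⟨c, hc⟩
          by_cases hj0 : ∃ c', j0 = J c'
          · obtain ⟨c', hc'⟩ := hj0
            refine coef3n' l hl (J 0) (J 1) (J 2) i0 n01 n02 n12 (hi0' 0).symm (hi0' 1).symm (hi0' 2).symm ?_
            have h5 : sy (l i0) (l i0) = ((1 : K) • sy (l i0) (l i0) + (-r) • sy (l j0) (l j0)) + r • sy (l j0) (l j0) := by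
              rw [one_smul, neg_smul, neg_add_cancel_right]
            rw [h5, hC]
            refine Submodule.add_mem _ (in_span5' l _) (Submodule.smul_mem _ _ ?_)
            rw [hc']
            exact hin c'
          · have hj0' : ∀ c, j0 ≠ J c := fun c hc => hj0 ⟨c, hc⟩
            have h5 := coef3n l hl (J 0) (J 1) (J 2) i0 j0 (by
              simp [n01, n02, n12, (hi0' 0).symm, (hi0' 1).symm, (hi0' 2).symm,
                (hj0' 0).symm, (hj0' 1).symm, (hj0' 2).symm, h0]) 1 (-r) one_ne_zero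
                (neg_ne_zero.2 hr0) _ hC
            have h6 : β * y ≠ 0 := h5.1
            have h7 : β * z ≠ 0 := h5.2
            rcases hyz with hyz | hyz
            · exact h7 (by rw [hyz.2, mul_zero])
            · exact h6 (by rw [hyz.1, mul_zero])
      have hN1 : B Φ l (J 0) (J 1) ∉ Submodule.span K (Set.range F) := by
        have := hN 1 0 (Or.inl ⟨one_ne_zero, rfl⟩)
        rwa [one_smul, zero_smul, add_zero] at this
      have hN2 : B Φ l (J 0) (J 2) ∉ Submodule.span K (Set.range F) := by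
        have := hN 0 1 (Or.inr ⟨rfl, one_ne_zero⟩)
        rwa [one_smul, zero_smul, zero_add] at this
      have hs1 := sN1 (fun h5 => hN1 (by rw [h5]; exact Submodule.zero_mem _))
      have hs2 := sN2 (fun h5 => hN2 (by rw [h5]; exact Submodule.zero_mem _))
      -- the index with the smallest size
      obtain ⟨c, hc⟩ := Finite.exists_min (fun c => s (F c))
      have hci := drop F hw g hg c (hgall c)
      have hsub : ∀ x, x ∉ Submodule.span K (Set.range F) →
          x ∉ Submodule.span K (Set.range fun i => F (c.succAbove i)) := by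
        intro x hx h5
        apply hx
        refine (Submodule.span_mono ?_) h5
        rintro _ ⟨i, rfl⟩
        exact ⟨_, rfl⟩
      have hsum : ∑ i, s (F (c.succAbove i)) = Tot Φ l s - s (F c) := by
        rw [h8, Fin.sum_univ_succAbove _ c]
        ring
      have hc0' := hc 0
      have hc1' := hc 1
      have hc2' := hc 2
      rw [f0] at hc0'
      rw [f1] at hc1'
      rw [f2] at hc2'
      have hmax : s (F c) ≤ s (B Φ l (J 0) (J 1)) + s (B Φ l (J 0) (J 2)) := by
        rcases min_cases (a (J 0)) (a (J 1) + b (J 0)) with h5 | h5 <;>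
        rcases min_cases (a (J 0) + b (J 2)) (b (J 0)) with h6 | h6 <;> linarith
      have h3T : 3 * s (F c) ≤ Tot Φ l s := by linarith
      rcases le_total (s (B Φ l (J 0) (J 1))) (s (B Φ l (J 0) (J 2))) with h7 | h7
      · refine cons_ind hci (hsub _ hN2) ?_
        rw [hsum]
        linarith
      · refine cons_ind hci (hsub _ hN1) ?_
        rw [hsum]
        linarith

/-! ### The type with two lines and the conclusion -/

theorem d2 (hE : ∀ i, E Φ l i ≠ 0) (i0 : Fin q) (h : ∀ i j, i ≠ j → Rel Φ l i j → Rel Φ l i i0)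
    (s : Q → ℝ) (a b : Fin q → ℝ) (hp : Plc Φ l s a b) (i j : Fin q) (hij : i ≠ j)
    (ha : ∀ k, k ≠ i → k ≠ j → a k = 0) (hb : ∀ k, k ≠ i → k ≠ j → b k = 0) :
    Ind K s ((3 * Tot Φ l s - 2 * s (E Φ l i0)) / 4) := by
  have hT : Tot Φ l s = s (E Φ l i) + s (E Φ l j) := by
    have h1 := tot_eq l Φ hp ![i, j] (by
      intro c c' hc
      fin_cases c <;> fin_cases c' <;> simp_all) fun k hk => by
        rw [ha k (hk 0) (hk 1), hb k (hk 0) (hk 1), add_zero]
    rw [h1, Fin.sum_univ_two]
    rfl
  have p0 := hp.nonneg _ (hE i)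
  have p1 := hp.nonneg _ (hE j)
  have pK := hp.nonneg _ (hE i0)
  by_cases hR : Rel Φ l i j
  · have h5 := rel_s l Φ hp hE (h i j hij hR)
    have h6 := rel_s l Φ hp hE hR
    refine ind1 (hE i) ?_
    linarith
  · refine ind2 (not_rel l Φ hE hR) ?_
    linarith

theorem loc4b (hΦ : Function.Surjective Φ) (hl : GP l) (hq : 4 ≤ q) (hE : ∀ i, E Φ l i ≠ 0) (hd : finrank K Q = 4)
    (i0 j0 : Fin q) (h0 : i0 ≠ j0) (hr : Rel Φ l i0 j0) (h : ∀ i j, i ≠ j → Rel Φ l i j → Rel Φ l i i0)
    (s : Q → ℝ) (a b : Fin q → ℝ) (hp : Plc Φ l s a b) : Ind K s ((3 * Tot Φ l s - 2 * s (E Φ l i0)) / 4) := by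
  rcases types l Φ s a b hp hq with ⟨i, j, i', j', hnd, ha, hb, h1, h2⟩ | ⟨i, j, k, hnd, ha, hb⟩ | ⟨i, j, hij, ha, hb⟩
  · refine d4 l Φ hΦ hl hE hd i0 j0 h0 hr h s a b hp ![i, j, i', j'] ?_ ha hb h1 h2
    simp only [List.nodup_cons, List.mem_cons, List.not_mem_nil, or_false, not_or, List.nodup_nil, and_true,
      not_false_eq_true] at hnd
    obtain ⟨⟨ij, ii', ij'⟩, ⟨ji', jj'⟩, i'j'⟩ := hnd
    intro c c' hc
    fin_cases c <;> fin_cases c' <;> simp_all [eq_comm]
  · refine d3' l Φ hΦ hl hE hd i0 j0 h0 hr h s a b hp ![i, j, k] ?_ ha hb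
    simp only [List.nodup_cons, List.mem_cons, List.not_mem_nil, or_false, not_or, List.nodup_nil, and_true,
      not_false_eq_true] at hnd
    obtain ⟨⟨ij, ik⟩, jk⟩ := hnd
    intro c c' hc
    fin_cases c <;> fin_cases c' <;> simp_all [eq_comm]
  · exact d2 l Φ hE i0 h s a b hp i j hij ha hb

end Pool.Agent.QP36
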